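import Pool.Agent.H73.TS.Targets

/-! Asymptotics of the Wills functional. -/

namespace Pool.Agent.H17.TS
open MeasureTheory Set Metric Filter Pool.Agent.H73.TS
open scoped ENNReal Topology Pointwise

theorem asy (hINT : T_INT) : T_ASY := by
  intro d Q hQ hne
  have hscale : ∀ R : ℝ, 0 < R → W ((fun x => R • x) '' Q) / R ^ d =
      ∫ y : E d, Real.exp (-(Real.pi * (R * infDist y Q) ^ 2)) := by
    intro R hR
    have h1 := Measure.integral_comp_smul (volume : Measure (E d))
      (fun x => Real.exp (-(Real.pi * infDist x ((fun x => R • x) '' Q) ^ 2))) R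
    have h2 : ∀ y : E d, infDist (R • y) ((fun x => R • x) '' Q) = R * infDist y Q := by
      intro y
      have h3 := infDist_smul₀ hR.ne' Q y
      rw [Real.norm_of_nonneg hR.le] at h3
      rw [← h3]
      rfl
    simp only [h2] at h1
    rw [h1, finrank_euclideanSpace_fin, abs_of_pos (by positivity), smul_eq_mul,
      inv_mul_eq_div]
    rfl
  have hlim : Tendsto (fun R : ℝ => ∫ y : E d, Real.exp (-(Real.pi * (R * infDist y Q) ^ 2)))
      atTop (𝓝 (∫ y : E d, Q.indicator (fun _ => (1 : ℝ)) y)) := by
    refine tendsto_integral_filter_of_dominated_convergence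
      (fun y => Real.exp (-(Real.pi * infDist y Q ^ 2))) ?_ ?_ (hINT d Q hne hQ.isBounded).1 ?_
    · refine Eventually.of_forall fun R => Continuous.aestronglyMeasurable ?_
      have := continuous_infDist_pt Q
      fun_prop
    · filter_upwards [eventually_ge_atTop (1 : ℝ)] with R hR
      refine Eventually.of_forall fun y => ?_
      rw [Real.norm_of_nonneg (Real.exp_pos _).le]
      apply Real.exp_le_exp.2
      have h0 : 0 ≤ infDist y Q := infDist_nonneg
      have h1 : infDist y Q ≤ R * infDist y Q := le_mul_of_one_le_left h0 hR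
      have h2 : infDist y Q ^ 2 ≤ (R * infDist y Q) ^ 2 := pow_le_pow_left₀ h0 h1 2
      have := mul_le_mul_of_nonneg_left h2 Real.pi_pos.le
      linarith
    · refine Eventually.of_forall fun y => ?_
      by_cases hy : y ∈ Q
      · rw [indicator_of_mem hy, infDist_zero_of_mem hy]
        simp
      · rw [indicator_of_notMem hy]
        have hpos : 0 < infDist y Q := (hQ.isClosed.notMem_iff_infDist_pos hne).1 hy
        have h1 : Tendsto (fun R : ℝ => Real.pi * (R * infDist y Q) ^ 2) atTop atTop := by
          refine Tendsto.const_mul_atTop Real.pi_pos ?_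
          exact (tendsto_pow_atTop two_ne_zero).comp (tendsto_id.atTop_mul_const hpos)
        exact Real.tendsto_exp_neg_atTop_nhds_zero.comp h1
  have hint : ∫ y : E d, Q.indicator (fun _ => (1 : ℝ)) y = (volume Q).toReal := by
    rw [integral_indicator hQ.measurableSet, setIntegral_const]
    simp [Measure.real]
  rw [hint] at hlim
  refine hlim.congr' ?_
  filter_upwards [eventually_gt_atTop (0 : ℝ)] with R hR
  rw [hscale R hR]

end Pool.Agent.H17.TS
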