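import Pool.Agent.H73.TS.Targets

/-! Finite counting for a totally separable family. -/

namespace Pool.Agent.H17.TS
open MeasureTheory Set Metric Filter Pool.Agent.H73.TS
open scoped ENNReal Topology

private lemma int_ne {d : ℕ} (L : E d ≃L[ℝ] E d) (x₀ t : E d) (K : Set (E d))
    (hb : ∀ b : E d, ‖b‖ ≤ 1 / 2 → x₀ + L.symm b ∈ K) :
    t + x₀ ∈ interior ((fun x => t + x) '' K) := by
  refine mem_interior.2 ⟨{y | ‖L (y - t - x₀)‖ < 1 / 2}, ?_, ?_, ?_⟩
  · intro y hy
    refine ⟨x₀ + L.symm (L (y - t - x₀)), hb _ (le_of_lt hy), ?_⟩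
    simp only [ContinuousLinearEquiv.symm_apply_apply]
    abel
  · exact isOpen_lt (by fun_prop) continuous_const
  · show ‖L (t + x₀ - t - x₀)‖ < 1 / 2
    rw [show t + x₀ - t - x₀ = 0 by abel, map_zero, norm_zero]
    norm_num

theorem fin (hCNT : T_CNT) (hSEP : T_SEP) : T_FIN := by
  intro d L x₀ K T Q S h2 h8 hKc hKv hb hT hST hQc hQv hQn hSQ
  classical
  have hinj : Function.Injective (fun u : E d => L (u + x₀)) := by
    intro u v h
    exact add_right_cancel (L.injective h)
  have hcard : (S.image fun u => L (u + x₀)).card = S.card :=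
    Finset.card_image_of_injective S hinj
  rw [← hcard]
  refine hCNT d _ Q h2 h8 hQc hQv ?_ hQn ?_
  · intro x hx
    rw [Finset.mem_coe, Finset.mem_image] at hx
    obtain ⟨u, hu, rfl⟩ := hx
    exact hSQ u hu
  · intro x hx y hy hxy
    obtain ⟨t, ht, rfl⟩ := Finset.mem_image.1 hx
    obtain ⟨s, hs, rfl⟩ := Finset.mem_image.1 hy
    have hts : t ≠ s := by
      rintro rfl
      exact hxy rfl
    obtain ⟨f, c, hf, hft, hfs, hfu⟩ := hT t (hST ht) s (hST hs) hts
    obtain ⟨e, c', he, halt⟩ := hSEP d L x₀ K hKc hKv hb f c hf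
    have hxt : x₀ ∈ K := by
      have := hb 0 (by rw [norm_zero]; norm_num)
      simpa using this
    refine ⟨e, c', he, Or.inl ⟨?_, ?_⟩, ?_⟩
    · rcases halt t (hfu t (hST ht)) with h | h
      · exact h.1
      · exact absurd (le_antisymm (hft x₀ hxt) (h.2 x₀ hxt))
          (hfu t (hST ht) _ (int_ne L x₀ t K hb))
    · rcases halt s (hfu s (hST hs)) with h | h
      · exact absurd (le_antisymm (h.2 x₀ hxt) (hfs x₀ hxt))
          (hfu s (hST hs) _ (int_ne L x₀ s K hb))
      · exact h.1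
    · intro z hz
      obtain ⟨u, hu, rfl⟩ := Finset.mem_image.1 hz
      rcases halt u (hfu u (hST hu)) with h | h
      · exact Or.inl h.1
      · exact Or.inr h.1

end Pool.Agent.H17.TS
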