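import Pool.Agent.H73.TS.Targets

/-! Transport in dimension zero. -/

namespace Pool.Agent.H17.TS
open MeasureTheory Set Metric Filter Pool.Agent.H73.TS
open scoped ENNReal Topology

private lemma vol_univ : (volume : Measure (E 0)) univ = 1 := by
  have h := (PiLp.volume_preserving_toLp (Fin 0)).measure_preimage
    (MeasurableSet.univ.nullMeasurableSet : NullMeasurableSet (univ : Set (E 0)) volume)
  rw [← h, preimage_univ, volume_pi, Measure.pi_of_empty]
  simp

theorem tz : T_TZ := by
  intro f₀ f₁ _ _ _ _ _ _ hi₀ hi₁ t ht0 ht1 F b₀ b₁ _ _ _ K hK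
  have e : ∀ f : E 0 → ℝ≥0∞, ∫⁻ x, f x = f 0 := by
    intro f
    have h : f = fun _ => f 0 := funext fun x => by rw [Subsingleton.elim x 0]
    rw [h, lintegral_const, vol_univ, mul_one]
  have e' : ∀ f : E 0 → ℝ, ∫ x, f x = f 0 := by
    intro f
    have h : f = fun _ => f 0 := funext fun x => by rw [Subsingleton.elim x 0]
    rw [h, integral_const, Measure.real, vol_univ]
    simp
  rw [e'] at hi₀ hi₁
  rw [e, e, e, hi₀, hi₁]
  have h := hK 0 0
  simpa using h

end Pool.Agent.H17.TS
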